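import Pool.Agent.Helper93.HZ.Spec1
import Pool.Agent.Helper93.HZ.Lib

/-! # HZ: module FF, removal of a free face (1.5) -/

set_option autoImplicit false

open MulAction Pointwise

namespace Pool.Agent.Helper93.HZ

section

variable {G : Type} [Group G]

/-- the pair `{p,q}` is a translate of `{x,y}` -/
def ffBad (K : Cx G) (x y p q : K.V) : Prop := ∃ g : G, ({p, q} : Set K.V) = {g • x, g • y}

theorem ff_bad_symm {K : Cx G} {x y p q : K.V} (h : ffBad K x y p q) : ffBad K x y q p := by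
  obtain ⟨g, hg⟩ := h
  exact ⟨g, by rw [Set.pair_comm]; exact hg⟩

theorem ff_bad_smul {K : Cx G} {x y p q : K.V} (k : G) (h : ffBad K x y p q) :
    ffBad K x y (k • p) (k • q) := by
  obtain ⟨g, hg⟩ := h
  refine ⟨k * g, ?_⟩
  have h1 : ({k • p, k • q} : Set K.V) = (fun v => k • v) '' {p, q} := by
    rw [Set.image_pair]
  rw [h1, hg, Set.image_pair, mul_smul, mul_smul]

theorem ff_bad_smul' {K : Cx G} {x y p q : K.V} (k : G) (h : ffBad K x y (k • p) (k • q)) :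
    ffBad K x y p q := by
  have := ff_bad_smul k⁻¹ h
  rwa [inv_smul_smul, inv_smul_smul] at this

theorem ff_apex {K : Cx G} {x y z : K.V} (ht : K.tri x y z) (hu : ∀ z', K.tri x y z' → z' = z)
    (hxz : ∀ g : G, ({g • x, g • y} : Set K.V) ≠ {x, z})
    (hyz : ∀ g : G, ({g • x, g • y} : Set K.V) ≠ {y, z}) {p q : K.V} (h : ffBad K x y p q) :
    ∃ w, K.tri p q w ∧ (∀ w', K.tri p q w' → w' = w) ∧ ¬ ffBad K x y p w ∧ ¬ ffBad K x y q w ∧
      ∃ g : G, ({p, q, w} : Set K.V) = {g • x, g • y, g • z} := by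
  have nxz : ¬ ffBad K x y x z := fun ⟨g, hg⟩ => hxz g hg.symm
  have nyz : ¬ ffBad K x y y z := fun ⟨g, hg⟩ => hyz g hg.symm
  obtain ⟨g, hg⟩ := h
  have key : K.tri (g • x) (g • y) (g • z) ∧ (∀ w', K.tri (g • x) (g • y) w' → w' = g • z) ∧
      ¬ ffBad K x y (g • x) (g • z) ∧ ¬ ffBad K x y (g • y) (g • z) := by
    refine ⟨K.smul_tri g _ _ _ ht, fun w' hw' => ?_, fun hb => nxz (ff_bad_smul' g hb),
      fun hb => nyz (ff_bad_smul' g hb)⟩
    have h1 := K.smul_tri g⁻¹ _ _ _ hw'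
    rw [inv_smul_smul, inv_smul_smul] at h1
    rw [← hu _ h1, smul_inv_smul]
  obtain ⟨k1, k2, k3, k4⟩ := key
  rcases Set.pair_eq_pair_iff.1 hg with ⟨rfl, rfl⟩ | ⟨rfl, rfl⟩
  · exact ⟨g • z, k1, k2, k3, k4, g, rfl⟩
  · exact ⟨g • z, K.tri_swap _ _ _ k1, fun w' hw' => k2 w' (K.tri_swap _ _ _ hw'), k4, k3, g,
      Set.insert_comm _ _ _⟩

theorem ff_sides {K : Cx G} {x y z p q r : K.V} (ht : K.tri x y z) (g : G)
    (h : ({p, q, r} : Set K.V) = {g • x, g • y, g • z}) :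
    ffBad K x y p q ∨ ffBad K x y q r ∨ ffBad K x y p r := by
  have hne : g • x ≠ g • y := fun e => (K.tri_ne ht).1 (smul_left_cancel g e)
  have hx : g • x ∈ ({p, q, r} : Set K.V) := by rw [h]; simp
  have hy : g • y ∈ ({p, q, r} : Set K.V) := by rw [h]; simp
  simp only [Set.mem_insert_iff, Set.mem_singleton_iff] at hx hy
  rcases hx with hx | hx | hx <;> rcases hy with hy | hy | hy
  · exact absurd (hx.trans hy.symm) hne
  · exact Or.inl ⟨g, by rw [hx, hy]⟩
  · exact Or.inr (Or.inr ⟨g, by rw [hx, hy]⟩)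
  · exact Or.inl ⟨g, by rw [hx, hy, Set.pair_comm]⟩
  · exact absurd (hx.trans hy.symm) hne
  · exact Or.inr (Or.inl ⟨g, by rw [hx, hy]⟩)
  · exact Or.inr (Or.inr ⟨g, by rw [hx, hy, Set.pair_comm]⟩)
  · exact Or.inr (Or.inl ⟨g, by rw [hx, hy, Set.pair_comm]⟩)
  · exact absurd (hx.trans hy.symm) hne

/-- the extended cocycle -/
theorem ff_sc {K : Cx G} {x y z : K.V} (ht : K.tri x y z) (hu : ∀ z', K.tri x y z' → z' = z)
    (hxz : ∀ g : G, ({g • x, g • y} : Set K.V) ≠ {x, z})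
    (hyz : ∀ g : G, ({g • x, g • y} : Set K.V) ≠ {y, z}) :
    SC (fun p q : K.V => K.adj p q ∧ ∀ g : G, ({p, q} : Set K.V) ≠ {g • x, g • y})
      (fun p q r : K.V => K.tri p q r ∧ ∀ g : G, ({p, q, r} : Set K.V) ≠ {g • x, g • y, g • z}) := by
  classical
  intro H _ c hc1 hc2
  have hadj : ∀ p q : K.V, K.adj p q → ¬ ffBad K x y p q → c p q * c q p = 1 := fun p q h1 h2 =>
    hc1 p q ⟨h1, fun g hg => h2 ⟨g, hg⟩⟩
  have hap : ∀ p q : K.V, ∃ w : K.V, ffBad K x y p q → K.tri p q w ∧ (∀ w', K.tri p q w' → w' = w) ∧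
      ¬ ffBad K x y p w ∧ ¬ ffBad K x y q w := by
    intro p q
    by_cases h : ffBad K x y p q
    · obtain ⟨w, h1, h2, h3, h4, _⟩ := ff_apex ht hu hxz hyz h
      exact ⟨w, fun _ => ⟨h1, h2, h3, h4⟩⟩
    · exact ⟨x, fun h' => absurd h' h⟩
  choose w hw using hap
  obtain ⟨c', hc'⟩ : ∃ c' : K.V → K.V → H, ∀ p q, c' p q =
      if ffBad K x y p q then c p (w p q) * c (w p q) q else c p q := ⟨_, fun _ _ => rfl⟩
  have hbad : ∀ p q r : K.V, ffBad K x y p q → K.tri p q r →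
      c' p q = c p r * c r q ∧ c' q r = c q r ∧ c' r p = c r p := by
    intro p q r hb hr
    obtain ⟨h1, h2, h3, h4⟩ := hw p q hb
    have e := h2 r hr
    subst e
    refine ⟨by rw [hc', if_pos hb], by rw [hc', if_neg h4], ?_⟩
    rw [hc', if_neg (fun h5 => h3 (ff_bad_symm h5))]
  have htri0 : ∀ p q r : K.V, ffBad K x y p q → K.tri p q r → c' p q * c' q r * c' r p = 1 := by
    intro p q r hb hr
    obtain ⟨e1, e2, e3⟩ := hbad p q r hb hr
    obtain ⟨h1, h2, h3, h4⟩ := hw p q hb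
    have e := h2 r hr
    subst e
    have a := K.tri_adj' hr
    have b1 := hadj _ _ a.2.1 h4
    have b2 := hadj _ _ a.2.2.1 (fun h5 => h3 (ff_bad_symm h5))
    have b1' := mul_eq_one_comm.1 b1
    have b2' := mul_eq_one_comm.1 b2
    rw [e1, e2, e3]
    calc c p (w p q) * c (w p q) q * c q (w p q) * c (w p q) p
        = c p (w p q) * (c (w p q) q * c q (w p q)) * c (w p q) p := by group
      _ = 1 := by rw [b1', mul_one, b2']
  have rot : ∀ a b d : H, a * b * d = 1 → b * d * a = 1 := by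
    intro a b d h
    have h1 : a * (b * d) = 1 := by rw [← mul_assoc]; exact h
    exact mul_eq_one_comm.1 h1
  have hsym : ∀ p q : K.V, K.adj p q → c' p q * c' q p = 1 := by
    intro p q hpq
    by_cases hb : ffBad K x y p q
    · obtain ⟨h1, h2, h3, h4⟩ := hw p q hb
      have h5 := (hbad p q _ hb h1).1
      have h6 := (hbad q p _ (ff_bad_symm hb) (K.tri_swap _ _ _ h1)).1
      have a := K.tri_adj' h1
      have b1 := hadj _ _ a.2.1 h4
      have b2 := hadj _ _ a.2.2.1 (fun h5 => h3 (ff_bad_symm h5))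
      have b1' := mul_eq_one_comm.1 b1
      have b2' := mul_eq_one_comm.1 b2
      rw [h5, h6]
      calc c p (w p q) * c (w p q) q * (c q (w p q) * c (w p q) p)
          = c p (w p q) * (c (w p q) q * c q (w p q)) * c (w p q) p := by group
        _ = 1 := by rw [b1', mul_one, b2']
    · rw [hc', if_neg hb, hc', if_neg (fun h => hb (ff_bad_symm h))]
      exact hadj p q hpq hb
  have htri : ∀ p q r : K.V, K.tri p q r → c' p q * c' q r * c' r p = 1 := by
    intro p q r hr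
    by_cases h1 : ffBad K x y p q
    · exact htri0 p q r h1 hr
    by_cases h2 : ffBad K x y q r
    · exact rot _ _ _ (rot _ _ _ (htri0 q r p h2 (K.tri_rot _ _ _ hr)))
    by_cases h3 : ffBad K x y r p
    · exact rot _ _ _ (htri0 r p q h3 (K.tri_rot _ _ _ (K.tri_rot _ _ _ hr)))
    rw [hc', hc', hc', if_neg h1, if_neg h2, if_neg h3]
    refine hc2 p q r ⟨hr, fun g hg => ?_⟩
    rcases ff_sides ht g hg with h4 | h4 | h4
    · exact h1 h4
    · exact h2 h4
    · exact h3 (ff_bad_symm h4)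
  obtain ⟨f, hf⟩ := K.sc H c' hsym htri
  refine ⟨f, fun p q hpq => ?_⟩
  have h1 : ¬ ffBad K x y p q := fun ⟨g, hg⟩ => hpq.2 g hg
  have h2 := hf p q hpq.1
  rw [hc', if_neg h1] at h2
  exact h2

/-- the complex without the free face -/
def ffK (K : Cx G) (x y z : K.V) (ht : K.tri x y z) (hu : ∀ z', K.tri x y z' → z' = z)
    (hxz : ∀ g : G, ({g • x, g • y} : Set K.V) ≠ {x, z})
    (hyz : ∀ g : G, ({g • x, g • y} : Set K.V) ≠ {y, z}) : Cx G where
  V := K.V
  act := K.act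
  adj p q := K.adj p q ∧ ∀ g : G, ({p, q} : Set K.V) ≠ {g • x, g • y}
  tri p q r := K.tri p q r ∧ ∀ g : G, ({p, q, r} : Set K.V) ≠ {g • x, g • y, g • z}
  ne := K.ne
  symm p q h := ⟨K.symm _ _ h.1, fun g => by rw [Set.pair_comm]; exact h.2 g⟩
  irrefl p h := K.irrefl p h.1
  nbr := by
    intro p
    obtain ⟨q, hq⟩ := K.nbr p
    by_cases hb : ffBad K x y p q
    · obtain ⟨w, h1, _, h3, _⟩ := ff_apex ht hu hxz hyz hb
      exact ⟨w, (K.tri_adj' h1).2.2.2.2.2, fun g hg => h3 ⟨g, hg⟩⟩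
    · exact ⟨q, hq, fun g hg => hb ⟨g, hg⟩⟩
  tri_adj := by
    intro p q r h
    refine ⟨K.tri_adj _ _ _ h.1, fun g hg => ?_⟩
    obtain ⟨w, _, h2, _, _, k, hk⟩ := ff_apex ht hu hxz hyz (p := p) (q := q) ⟨g, hg⟩
    have e := h2 r h.1
    subst e
    exact h.2 k hk
  tri_rot := by
    intro p q r h
    refine ⟨K.tri_rot _ _ _ h.1, fun g hg => h.2 g ?_⟩
    rw [← hg]
    ext v
    simp only [Set.mem_insert_iff, Set.mem_singleton_iff]
    tauto
  tri_swap := by
    intro p q r h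
    refine ⟨K.tri_swap _ _ _ h.1, fun g hg => h.2 g ?_⟩
    rw [← hg]
    exact Set.insert_comm _ _ _
  smul_adj := by
    intro k p q h
    refine ⟨K.smul_adj k _ _ h.1, fun g hg => ?_⟩
    obtain ⟨g', hg'⟩ := ff_bad_smul' (x := x) (y := y) k ⟨g, hg⟩
    exact h.2 g' hg'
  smul_tri := by
    intro k p q r h
    refine ⟨K.smul_tri k _ _ _ h.1, fun g hg => h.2 (k⁻¹ * g) ?_⟩
    have h1 : ({p, q, r} : Set K.V) = (fun v => k⁻¹ • v) '' {k • p, k • q, k • r} := by
      rw [Set.image_insert_eq, Set.image_pair, inv_smul_smul, inv_smul_smul, inv_smul_smul]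
    rw [h1, hg, Set.image_insert_eq, Set.image_pair, mul_smul, mul_smul, mul_smul]
  conn := by
    intro p q
    have h := K.conn p q
    induction h with
    | refl => exact Relation.ReflTransGen.refl
    | @tail b c _ hbc ih =>
      by_cases hb : ffBad K x y b c
      · obtain ⟨w, h1, _, h3, h4, _⟩ := ff_apex ht hu hxz hyz hb
        have a := K.tri_adj' h1
        exact (ih.tail ⟨a.2.2.2.2.2, fun g hg => h3 ⟨g, hg⟩⟩).tail
          ⟨a.2.2.2.2.1, fun g hg => h4 ⟨g, by rw [Set.pair_comm]; exact hg⟩⟩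
      · exact ih.tail ⟨hbc, fun g hg => hb ⟨g, hg⟩⟩
  sc := ff_sc ht hu hxz hyz
  finE := FinOrb.mono K.finE (fun _ h => h.1)
  finT := FinOrb.mono K.finT (by
    rintro _ ⟨p, q, r, h, rfl⟩
    exact ⟨p, q, r, h.1, rfl⟩)
  stab := K.stab

theorem st_FF : ST_FF := by
  intro G _ _ K x y z ht hu hxz hyz
  refine ⟨ffK K x y z ht hu hxz hyz, id, ⟨fun _ _ h => h, fun _ _ => rfl, fun _ _ h => h.1,
    fun _ _ _ h => h.1⟩, Function.surjective_id, fun _ _ => Iff.rfl, fun _ _ _ => Iff.rfl, ?_⟩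
  have hfin : ((fun s : Set K.V => orbit G s) ''
      {s : Set K.V | ∃ p q r, K.tri p q r ∧ s = {p, q, r}}).Finite := K.finT
  have hmem : orbit G ({x, y, z} : Set K.V) ∈ (fun s : Set K.V => orbit G s) ''
      {s : Set K.V | ∃ p q r, K.tri p q r ∧ s = {p, q, r}} := ⟨_, ⟨x, y, z, ht, rfl⟩, rfl⟩
  have hsub : (fun s : Set K.V => orbit G s) ''
      {s : Set K.V | ∃ p q r : K.V, (K.tri p q r ∧
        ∀ g : G, ({p, q, r} : Set K.V) ≠ {g • x, g • y, g • z}) ∧ s = {p, q, r}} ⊆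
      ((fun s : Set K.V => orbit G s) ''
        {s : Set K.V | ∃ p q r, K.tri p q r ∧ s = {p, q, r}}) \ {orbit G ({x, y, z} : Set K.V)} := by
    rintro _ ⟨_, ⟨p, q, r, h, rfl⟩, rfl⟩
    refine ⟨⟨_, ⟨p, q, r, h.1, rfl⟩, rfl⟩, fun he => ?_⟩
    rw [Set.mem_singleton_iff] at he
    obtain ⟨g, hg⟩ := orbit_eq_iff'.1 he.symm
    apply h.2 g
    rw [← hg, Set.smul_set_insert, Set.smul_set_insert, Set.smul_set_singleton]
  have h1 := Set.ncard_le_ncard hsub (hfin.subset Set.sdiff_subset)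
  have h2 := Set.ncard_sdiff_singleton_add_one hmem hfin
  show ((fun s : Set K.V => orbit G s) ''
      {s : Set K.V | ∃ p q r : K.V, (K.tri p q r ∧
        ∀ g : G, ({p, q, r} : Set K.V) ≠ {g • x, g • y, g • z}) ∧ s = {p, q, r}}).ncard + 1 ≤
    ((fun s : Set K.V => orbit G s) '' {s : Set K.V | ∃ p q r, K.tri p q r ∧ s = {p, q, r}}).ncard
  omega

end

end Pool.Agent.Helper93.HZ
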